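import Pool.Agent.PFD.StmtsD3

/-! Squad PFD, block D3, row EUD: the Euler derivation. -/

set_option autoImplicit false

open scoped BigOperators

noncomputable section

namespace Pool.Agent.PFD.D3.H90

open MvPolynomial Pool.Agent.PFD Pool.Agent.PFD.D3

/-- EUD -/
theorem eud (hPac : PacStmt) : EudStmt := by
  classical
  intro ℓ _ R F E B R1 _ _ _ _ c J _ _ a D _ _ q
  let v : R1 →ₗ[R] R1 := q.b.constr R (fun α => ((∑ i, (α i : ℕ) : ℕ) : R) • q.b α)
  have hv : ∀ x, v x = ∑ α, q.b.equivFun x α • (((∑ i, (α i : ℕ) : ℕ) : R) • q.b α) := by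
    intro x
    exact q.b.constr_apply_fintype R _ x
  have h1 : ∀ d (p : MvPolynomial (Σ b, J b) R), p.IsHomogeneous d →
      v (q.pm p) = (d : R) • q.pm p := by
    intro d p hp
    rw [hv]
    conv_rhs => rw [← q.b.sum_equivFun (q.pm p)]
    rw [Finset.smul_sum]
    refine Finset.sum_congr rfl (fun α _ => ?_)
    by_cases h : (∑ i, (α i : ℕ)) = d
    · rw [h, smul_comm]
    · have h2 : q.b.equivFun (q.pm p) α = 0 := by
        rw [Module.Basis.equivFun_apply]
        exact q.b_deg d p hp α h
      rw [h2, zero_smul, zero_smul, smul_zero]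
  have hm : ∀ (u : (Σ b, J b) →₀ ℕ) (r : R), (monomial u r : MvPolynomial (Σ b, J b) R).IsHomogeneous
      u.degree := fun u r => isHomogeneous_monomial r rfl
  refine ⟨v, h1, ?_, ?_⟩
  · intro x y
    obtain ⟨P, rfl⟩ := q.sur x
    obtain ⟨Q, rfl⟩ := q.sur y
    induction P using MvPolynomial.induction_on' with
    | monomial u r =>
      induction Q using MvPolynomial.induction_on' with
      | monomial w s =>
        have h3 := h1 _ _ ((hm u r).mul (hm w s))
        rw [map_mul] at h3
        rw [h3, h1 _ _ (hm u r), h1 _ _ (hm w s), Nat.cast_add, add_smul, smul_mul_assoc,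
          mul_smul_comm]
      | add Q1 Q2 hQ1 hQ2 =>
        rw [map_add, mul_add, map_add, hQ1, hQ2, map_add, mul_add, mul_add]
        abel
    | add P1 P2 hP1 hP2 =>
      rw [map_add, add_mul, map_add, hP1, hP2, map_add, add_mul, add_mul]
      abel
  · intro act hact e x
    obtain ⟨P, rfl⟩ := q.sur x
    induction P using MvPolynomial.induction_on' with
    | monomial u r =>
      have h4 := (hPac R E B J D).2.2.2 e _ _ (hm u r)
      rw [hact, h1 _ _ h4, h1 _ _ (hm u r), map_smul, hact]
    | add P1 P2 hP1 hP2 =>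
      rw [map_add, map_add, map_add, hP1, hP2, map_add, map_add]

end Pool.Agent.PFD.D3.H90
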