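import Pool.Agent.PFD.StmtsD4

/-!
Squad PFD, row KBC (helper90): the data over `K`.
-/

open scoped BigOperators TensorProduct

noncomputable section

namespace Pool.Agent.PFD.D4.H90

open Pool.Agent.PFC.B1 (BiM FS Sep Split)
open Pool.Agent.PFD.D2
open Pool.Agent.PFD.D2b

section
variable {R F Γ Γ0 A A1 W I : Type} [CommRing R] [Field F] {c : Cdv R F} [Ring Γ]
    [Algebra R Γ] [Ring Γ0] [Algebra F Γ0] [Ring A] [Algebra F A] [Ring A1] [Algebra R A1]
    [CommGroup W] [Fintype W] [Fintype I] {D : WFS R Γ W I} {f : FibG Γ Γ0 c}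
    {j0 : Γ0 →ₐ[F] A} {pr0 : A →ₗ[F] Γ0}

/-- the twisted form on `Γ` -/
def c1 (D : WFS R Γ W I) (u u' : Γ) (uu : u * u' = 1) (uu' : u' * u = 1) :
    FS R Γ (I × W) where
  lam := D.lam ∘ₗ LinearMap.mulLeft R u
  b := D.fs.b
  b' := fun s => u' * D.fs.b' s
  h1 := fun x => by
    have h := D.fs.h1 x
    conv_rhs => rw [← h]
    apply Finset.sum_congr rfl
    intro s _
    show D.lam (u * (u' * D.fs.b' s * x)) • D.fs.b s = _
    rw [mul_assoc u', ← mul_assoc u, uu, one_mul]
    rfl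
  h2 := fun x => by
    have h := D.fs.h2 (u * x)
    have h2 : x = u' * (u * x) := by rw [← mul_assoc, uu', one_mul]
    conv_rhs => rw [h2, ← h, Finset.mul_sum]
    apply Finset.sum_congr rfl
    intro s _
    show D.lam (u * (x * D.fs.b s)) • (u' * D.fs.b' s) = _
    rw [mul_smul_comm, mul_assoc u]
    rfl

theorem c1_lam (D : WFS R Γ W I) (u u' : Γ) (uu : u * u' = 1) (uu' : u' * u = 1) (x : Γ) :
    (c1 D u u' uu uu').lam x = D.lam (u * x) := rfl

theorem c1_b (D : WFS R Γ W I) (u u' : Γ) (uu : u * u' = 1) (uu' : u' * u = 1) (s : I × W) :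
    (c1 D u u' uu uu').b s = D.fs.b s := rfl

theorem c1_b' (D : WFS R Γ W I) (u u' : Γ) (uu : u * u' = 1) (uu' : u' * u = 1) (s : I × W) :
    (c1 D u u' uu uu').b' s = u' * D.fs.b' s := rfl

/-- the form `tA` on `A1` -/
def d1 {B N J : Type} [Ring B] [Algebra R B] [Fintype N] [Fintype J] (c : FS R B J)
    (j : B →ₐ[R] A1) (pr : A1 →ₗ[R] B) (s : RF R B A1 N j pr) (tA : A1 →ₗ[R] R)
    (pl : ∀ γ x, pr (j γ * x) = γ * pr x) (prr : ∀ x γ, pr (x * j γ) = pr x * γ)
    (ort : ∀ x, tA x = c.lam (pr x)) : FS R A1 (N × J) where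
  lam := tA
  b := fun p => s.x p.1 * j (c.b p.2)
  b' := fun p => j (c.b' p.2) * s.y p.1
  h1 := fun a => by
    rw [Fintype.sum_prod_type]
    have h := s.e1 a
    conv_rhs => rw [← h]
    apply Finset.sum_congr rfl
    intro k _
    have h3 := c.h1 (pr (s.y k * a))
    conv_rhs => rw [← h3, map_sum, Finset.mul_sum]
    apply Finset.sum_congr rfl
    intro i _
    show tA (j (c.b' i) * s.y k * a) • (s.x k * j (c.b i)) = _
    rw [ort, mul_assoc, pl, map_smul, mul_smul_comm]
  h2 := fun a => by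
    rw [Fintype.sum_prod_type]
    have h := s.e2 a
    conv_rhs => rw [← h]
    apply Finset.sum_congr rfl
    intro k _
    have h3 := c.h2 (pr (a * s.x k))
    conv_rhs => rw [← h3, map_sum, Finset.sum_mul]
    apply Finset.sum_congr rfl
    intro i _
    show tA (a * (s.x k * j (c.b i))) • (j (c.b' i) * s.y k) = _
    rw [ort, ← mul_assoc, prr, map_smul, smul_mul_assoc]

end

theorem kbc (hBFS : BfsStmt) (hBSP : BspStmt) (hBRF : BrfStmt) (hBDV : BdvStmt) : KbcStmt := by
  intro R F Γ Γ0 A A1 W I K _ _ c _ _ _ _ _ _ _ _ _ _ _ D f j0 pr0 lr _ _ _ v P M wt vm vP vN hw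
    hv
  letI := lr.fN
  have uu := lr.uu
  have uu' : lr.u' * lr.u = 1 := by rw [← lr.uc]; exact uu
  -- the Frobenius system of `Γ`
  set cc := c1 D lr.u lr.u' uu uu' with hcc
  have ccl : ∀ x, cc.lam x = D.lam (lr.u * x) := fun x => rfl
  have ccs : ∀ x y, cc.lam (x * y) = cc.lam (y * x) := by
    intro x y
    rw [ccl, ccl, ← mul_assoc, D.sym, ← mul_assoc, ← lr.uc, mul_assoc]
  obtain ⟨c', c'b, c'b', c'l, c's⟩ := hBFS R K Γ (I × W) cc
  -- the Frobenius system of `A1`
  obtain ⟨d', d'b, d'b', d'l, d's⟩ := hBFS R K A1 (lr.N × (I × W))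
    (d1 cc lr.j lr.pr lr.rf lr.tA lr.pr_l lr.pr_r (fun x => lr.ort x))
  -- the split
  have hju : lr.j lr.u * lr.j lr.u' = 1 := by rw [← map_mul, uu, map_one]
  obtain ⟨sp, spj, spp⟩ := hBSP R K Γ A1 (I × W) cc c' lr.j lr.pr
    (LinearMap.mulRight R (lr.j lr.u) ∘ₗ lr.a ∘ₗ LinearMap.mulLeft R (lr.j lr.u))
    (Fintype.card W : R) c'b c'b' lr.pr_j lr.pr_l lr.pr_r
    (by
      intro x
      rw [← lr.a_id x]
      apply Finset.sum_congr rfl
      intro s _
      apply Finset.sum_congr rfl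
      intro t _
      show lr.j (D.fs.b s) * (lr.a (lr.j lr.u * (lr.j (lr.u' * D.fs.b' s) * x * lr.j (D.fs.b t))) *
        lr.j lr.u) * lr.j (lr.u' * D.fs.b' t) = _
      have h1 : lr.j lr.u * (lr.j (lr.u' * D.fs.b' s) * x * lr.j (D.fs.b t)) =
          lr.j (D.fs.b' s) * x * lr.j (D.fs.b t) := by
        rw [map_mul, ← mul_assoc, ← mul_assoc, ← mul_assoc, hju, one_mul]
      have h2 : ∀ z : A1, z * lr.j lr.u * lr.j (lr.u' * D.fs.b' t) = z * lr.j (D.fs.b' t) := by
        intro z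
        rw [map_mul, mul_assoc, ← mul_assoc (lr.j lr.u), hju, one_mul]
      rw [h1, ← mul_assoc (lr.j (D.fs.b s)), h2])
    (by
      rw [map_natCast]
      exact Nat.cast_ne_zero.mpr Fintype.card_ne_zero)
  -- the relative Frobenius system
  obtain ⟨s', s'x, s'y, s'r⟩ := hBRF R K Γ A1 lr.N lr.j lr.pr lr.rf sp.j sp.pr spj spp
  -- the derivation
  obtain ⟨v', v'v, v'm, v'n⟩ := hBDV R K Γ v P M vm vP vN
  have hone : ∀ (B : Type) [Ring B] [Algebra R B] (x : B), IsUnit x →
      IsUnit ((1 : K) ⊗ₜ[R] x) := by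
    intro B _ _ x hx
    exact hx.map (Algebra.TensorProduct.includeRight : B →ₐ[R] K ⊗[R] B)
  refine ⟨lr.N × (I × W), lr.N, inferInstance, inferInstance, ⟨?_⟩⟩
  refine
    { c := c'
      cs := c's ccs
      sp := sp
      d := d'
      ds := d's lr.ts
      ort := ?_
      s := s'
      u := 1 ⊗ₜ lr.u
      u' := 1 ⊗ₜ lr.u'
      uc := ?_
      uu := ?_
      v := v'
      vm := v'm
      wt := wt
      wp := hw
      tv := ?_
      nil := v'n
      un1 := ?_
      unu := ?_ }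
  · intro x
    induction x using TensorProduct.induction_on with
    | zero => rw [map_zero, map_zero, map_zero]
    | tmul k a =>
      rw [d'l, spp, c'l]
      show algebraMap R K (lr.tA a) * k = _
      rw [lr.ort, ccl]
    | add x y hx hy => rw [map_add, map_add, map_add, hx, hy]
  · intro x
    induction x using TensorProduct.induction_on with
    | zero => rw [mul_zero, zero_mul]
    | tmul k a =>
      rw [Algebra.TensorProduct.tmul_mul_tmul, Algebra.TensorProduct.tmul_mul_tmul, one_mul,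
        mul_one, lr.uc]
    | add x y hx hy => rw [mul_add, add_mul, hx, hy]
  · rw [Algebra.TensorProduct.tmul_mul_tmul, one_mul, uu]
    rfl
  · intro x
    induction x using TensorProduct.induction_on with
    | zero => rw [map_zero, mul_zero, map_zero, mul_zero]
    | tmul k a =>
      have e : ∀ z : Γ, lr.u * (lr.u' * z) = z := fun z => by rw [← mul_assoc, uu, one_mul]
      rw [v'v, Algebra.TensorProduct.tmul_mul_tmul, Algebra.TensorProduct.tmul_mul_tmul, one_mul,
        c'l, c'l, ccl, ccl, e, e, hv, map_mul, map_natCast, mul_assoc]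
    | add x y hx hy =>
      rw [map_add, mul_add, map_add, hx, hy, mul_add, map_add, mul_add]
  · have h : s'.rt 1 = 1 ⊗ₜ lr.rf.rt 1 := s'r 1
    rw [h]
    exact hone A1 _ lr.un1
  · rw [spj, s'r]
    exact hone A1 _ lr.unu

end Pool.Agent.PFD.D4.H90
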